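import Pool.Agent.P8H72.HR.F2

/-! Project HR, package F: every cocycle with values in the traceless matrices over a
representation with scalar commutant is tangent to a path of representations. -/

namespace P8H72.HRF

open Matrix P8H97.HR Filter Topology
open scoped Matrix.Norms.Operator

/-- the inclusion of `SL(4,R)` in the units of the matrix ring -/
noncomputable def io : SL4 →* M4ˣ :=
  (⟨⟨fun g => (g : M4), rfl⟩, fun _ _ => rfl⟩ : SL4 →* M4).toHomUnits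

theorem io_coe (g : SL4) : ((io g : M4ˣ) : M4) = (g : M4) := rfl

theorem io_inv (g : SL4) : (((io g)⁻¹ : M4ˣ) : M4) = ((g⁻¹ : SL4) : M4) := rfl

theorem coe_inv_eq (g : SL4) : ((g⁻¹ : SL4) : M4) = Ring.inverse (g : M4) := by
  rw [← io_coe g, Ring.inverse_unit, io_inv]

section cocycle

variable {ρ : Surf →* SL4} {z : Surf → M4}
  (hz : ∀ γ δ, z (γ * δ) = z γ + (ρ γ : M4) * z δ * ((ρ γ)⁻¹ : SL4))

theorem mul_inv_coe (g : SL4) : (g : M4) * ((g⁻¹ : SL4) : M4) = 1 := by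
  rw [← Matrix.SpecialLinearGroup.coe_mul, mul_inv_cancel, Matrix.SpecialLinearGroup.coe_one]

theorem inv_mul_coe (g : SL4) : ((g⁻¹ : SL4) : M4) * (g : M4) = 1 := by
  rw [← Matrix.SpecialLinearGroup.coe_mul, inv_mul_cancel, Matrix.SpecialLinearGroup.coe_one]

include hz in
theorem z_one : z 1 = 0 := by
  have h := hz 1 1
  simp only [mul_one, map_one, Matrix.SpecialLinearGroup.coe_one, one_mul, inv_one] at h
  have : z 1 + 0 = z 1 + z 1 := by rw [add_zero]; exact h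
  exact (add_left_cancel this).symm

include hz in
theorem D_mul (γ δ : Surf) : z (γ * δ) * (ρ (γ * δ) : M4) =
    z γ * (ρ γ : M4) * (ρ δ : M4) + (ρ γ : M4) * (z δ * (ρ δ : M4)) := by
  rw [hz, map_mul, Matrix.SpecialLinearGroup.coe_mul, add_mul]
  congr 1
  · rw [mul_assoc]
  · calc (ρ γ : M4) * z δ * ((ρ γ)⁻¹ : SL4) * ((ρ γ : M4) * (ρ δ : M4))
        = (ρ γ : M4) * z δ * (((ρ γ)⁻¹ : SL4) * (ρ γ : M4)) * (ρ δ : M4) := by noncomm_ring
      _ = _ := by rw [inv_mul_coe, mul_one, mul_assoc]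

include hz in
theorem D_inv (γ : Surf) : z γ⁻¹ * (ρ γ⁻¹ : M4) =
    -(((ρ γ)⁻¹ : SL4) * (z γ * (ρ γ : M4)) * ((ρ γ)⁻¹ : SL4)) := by
  have h := D_mul hz γ γ⁻¹
  rw [mul_inv_cancel, z_one hz, zero_mul, map_inv] at h
  have h2 : (ρ γ : M4) * (z γ⁻¹ * ((ρ γ)⁻¹ : SL4)) =
      -(z γ * (ρ γ : M4) * ((ρ γ)⁻¹ : SL4)) := by
    rw [eq_neg_iff_add_eq_zero, add_comm]; exact h.symm
  calc z γ⁻¹ * (ρ γ⁻¹ : M4) = (((ρ γ)⁻¹ : SL4) * (ρ γ : M4)) * (z γ⁻¹ * ((ρ γ)⁻¹ : SL4)) := by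
        rw [inv_mul_coe, one_mul, map_inv]
    _ = ((ρ γ)⁻¹ : SL4) * ((ρ γ : M4) * (z γ⁻¹ * ((ρ γ)⁻¹ : SL4))) := by rw [mul_assoc]
    _ = _ := by rw [h2]; noncomm_ring

include hz in
theorem D_com (γ δ : Surf) : z (γ * δ * γ⁻¹ * δ⁻¹) * (ρ (γ * δ * γ⁻¹ * δ⁻¹) : M4) =
    dcom (io (ρ γ)) (io (ρ δ)) (z γ * (ρ γ : M4)) (z δ * (ρ δ : M4)) := by
  rw [D_mul hz, D_mul hz, D_mul hz, D_inv hz, D_inv hz]
  simp only [map_mul, map_inv, Matrix.SpecialLinearGroup.coe_mul, dcom, io_coe, io_inv]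

include hz in
theorem dPsi_zero : dPsi (fun i => io (ρ (gen i))) (fun i => z (gen i) * (ρ (gen i) : M4)) = 0 := by
  have h := D_mul hz (gen 0 * gen 1 * (gen 0)⁻¹ * (gen 1)⁻¹)
    (gen 2 * gen 3 * (gen 2)⁻¹ * (gen 3)⁻¹)
  rw [surf_rel, z_one hz, zero_mul, D_com hz, D_com hz] at h
  rw [dPsi, h]
  simp only [cm, ← map_mul, ← map_inv, io_coe]

end cocycle

/-- the family of homomorphisms -/
noncomputable def Rf (ρ : Surf →* SL4) (W : Fin 4 → SL4) : Surf →* SL4 := by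
  classical
  exact if h : ∀ r ∈ ({rel} : Set (FreeGroup (Fin 4))), FreeGroup.lift W r = 1 then
    PresentedGroup.toGroup h else ρ

theorem Rf_gen {ρ : Surf →* SL4} {W : Fin 4 → SL4}
    (h : W 0 * W 1 * (W 0)⁻¹ * (W 1)⁻¹ * (W 2 * W 3 * (W 2)⁻¹ * (W 3)⁻¹) = 1) (i : Fin 4) :
    Rf ρ W (gen i) = W i := by
  have h' : ∀ r ∈ ({rel} : Set (FreeGroup (Fin 4))), FreeGroup.lift W r = 1 := by
    intro r hr
    rw [Set.mem_singleton_iff] at hr
    subst hr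
    simp only [rel, map_mul, map_inv, FreeGroup.lift_apply_of]
    exact h
  rw [Rf, dif_pos h']
  exact PresentedGroup.toGroup.of h'

theorem Rf_self (ρ : Surf →* SL4) {W : Fin 4 → SL4} (hW : ∀ i, W i = ρ (gen i)) :
    Rf ρ W = ρ := by
  have h : W 0 * W 1 * (W 0)⁻¹ * (W 1)⁻¹ * (W 2 * W 3 * (W 2)⁻¹ * (W 3)⁻¹) = 1 := by
    simp only [hW]
    rw [← map_one ρ, ← surf_rel]
    simp only [map_mul, map_inv]
  refine PresentedGroup.ext fun i => ?_
  exact (Rf_gen h i).trans (hW i)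

theorem R_inv {ρ : Surf →* SL4} {z : Surf → M4}
    (hz : ∀ γ δ, z (γ * δ) = z γ + (ρ γ : M4) * z δ * ((ρ γ)⁻¹ : SL4))
    {R : ℝ → (Surf →* SL4)} (hR0 : R 0 = ρ) (γ : Surf)
    (hγ : HasDerivAt (fun t => (R t γ : M4)) (z γ * (ρ γ : M4)) 0) :
    HasDerivAt (fun t => (R t γ⁻¹ : M4)) (z γ⁻¹ * (ρ γ⁻¹ : M4)) 0 := by
  have h0 : ((io (ρ γ) : M4ˣ) : M4) = (R 0 γ : M4) := by rw [hR0]; rfl
  have h1 : HasFDerivAt (𝕜 := ℝ) (Ring.inverse : M4 → M4)
      (-ContinuousLinearMap.mulLeftRight ℝ M4 (((io (ρ γ))⁻¹ : M4ˣ) : M4)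
        (((io (ρ γ))⁻¹ : M4ˣ) : M4)) ((io (ρ γ) : M4ˣ) : M4) := hasFDerivAt_ringInverse _
  have h2 := HasFDerivAt.comp_hasDerivAt_of_eq (0 : ℝ) h1 hγ h0
  have h3 : (fun t => (R t γ⁻¹ : M4)) = fun t => Ring.inverse (R t γ : M4) := by
    funext t
    rw [map_inv, coe_inv_eq]
  have h4 : z γ⁻¹ * (ρ γ⁻¹ : M4) =
      (-ContinuousLinearMap.mulLeftRight ℝ M4 (((io (ρ γ))⁻¹ : M4ˣ) : M4)
        (((io (ρ γ))⁻¹ : M4ˣ) : M4)) (z γ * (ρ γ : M4)) := by
    rw [D_inv hz]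
    rfl
  rw [h3, h4]
  exact h2

theorem R_mul {ρ : Surf →* SL4} {z : Surf → M4}
    (hz : ∀ γ δ, z (γ * δ) = z γ + (ρ γ : M4) * z δ * ((ρ γ)⁻¹ : SL4))
    {R : ℝ → (Surf →* SL4)} (hR0 : R 0 = ρ) (γ δ : Surf)
    (hγ : HasDerivAt (fun t => (R t γ : M4)) (z γ * (ρ γ : M4)) 0)
    (hδ : HasDerivAt (fun t => (R t δ : M4)) (z δ * (ρ δ : M4)) 0) :
    HasDerivAt (fun t => (R t (γ * δ) : M4)) (z (γ * δ) * (ρ (γ * δ) : M4)) 0 := by
  have h1 := hγ.mul hδ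
  have h3 : (fun t => (R t (γ * δ) : M4)) = (fun t => (R t γ : M4)) * fun t => (R t δ : M4) := by
    funext t
    rw [map_mul, Matrix.SpecialLinearGroup.coe_mul, Pi.mul_apply]
  rw [h3, D_mul hz]
  rw [hR0] at h1
  exact h1

theorem R_all {ρ : Surf →* SL4} {z : Surf → M4}
    (hz : ∀ γ δ, z (γ * δ) = z γ + (ρ γ : M4) * z δ * ((ρ γ)⁻¹ : SL4))
    {R : ℝ → (Surf →* SL4)} (hR0 : R 0 = ρ)
    (hg : ∀ i, HasDerivAt (fun t => (R t (gen i) : M4)) (z (gen i) * (ρ (gen i) : M4)) 0)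
    (γ : Surf) : HasDerivAt (fun t => (R t γ : M4)) (z γ * (ρ γ : M4)) 0 := by
  let S : Subgroup Surf :=
    { carrier := {γ | HasDerivAt (fun t => (R t γ : M4)) (z γ * (ρ γ : M4)) 0}
      mul_mem' := fun {γ δ} hγ hδ => R_mul hz hR0 γ δ hγ hδ
      one_mem' := by
        simp only [Set.mem_ofPred_eq, map_one, z_one hz, zero_mul]
        exact hasDerivAt_const _ _
      inv_mem' := fun {γ} hγ => R_inv hz hR0 γ hγ }
  have htop : S = ⊤ := by
    rw [eq_top_iff, ← PresentedGroup.closure_range_of, Subgroup.closure_le]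
    rintro _ ⟨i, rfl⟩
    exact hg i
  have : γ ∈ S := by rw [htop]; trivial
  exact this

/-- normalised four-tuple -/
noncomputable def Wf (g : Fin 4 → SL4) (X : Fin 4 → M4) (i : Fin 4) : SL4 := nrm (X i) (g i)

theorem Wf_rel {X : Fin 4 → M4} {g : Fin 4 → SL4} (h : ∀ i, 0 < (X i).det)
    (hp : pr (Psi X) = 0) (ht : 0 < (Psi X).trace) :
    Wf g X 0 * Wf g X 1 * (Wf g X 0)⁻¹ * (Wf g X 1)⁻¹ *
      (Wf g X 2 * Wf g X 3 * (Wf g X 2)⁻¹ * (Wf g X 3)⁻¹) = 1 := by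
  simp only [Wf]
  exact eq_one_of h hp ht

/-- package F -/
theorem part_F : S_F := by
  intro ρ hcomm z hz htr
  let a : Fin 4 → M4ˣ := fun i => io (ρ (gen i))
  have hr : cm (a 0) (a 1) * cm (a 2) (a 3) = 1 := by
    have := congrArg (fun γ => io (ρ γ)) surf_rel
    simp only [map_mul, map_inv, map_one] at this
    exact this
  have hc : ∀ Y : M4, (∀ i, a i ∈ cen Y) → ∃ c : ℝ, Y = c • (1 : M4) := by
    intro Y hY
    apply hcomm
    intro γ
    have : γ ∈ (cen Y).comap (io.comp ρ) := by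
      have htop : (cen Y).comap (io.comp ρ) = ⊤ := by
        rw [eq_top_iff, ← PresentedGroup.closure_range_of, Subgroup.closure_le]
        rintro _ ⟨i, rfl⟩
        exact hY i
      rw [htop]; trivial
    exact (mem_cen.1 this).eq
  obtain ⟨V, hV0, hV, hVp⟩ := path_exists hr hc (fun i => z (gen i) * (ρ (gen i) : M4))
    (dPsi_zero hz)
  have hVi : ∀ i, HasDerivAt (fun t => V t i) (z (gen i) * (ρ (gen i) : M4)) 0 :=
    fun i => (hasDerivAt_pi.1 hV) i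
  have hV0i : ∀ i, V 0 i = (ρ (gen i) : M4) := fun i => by rw [hV0]; rfl
  obtain ⟨g, hg⟩ : ∃ g : Fin 4 → SL4, ∀ i, g i = ρ (gen i) := ⟨_, fun _ => rfl⟩
  obtain ⟨W, hWd⟩ : ∃ W : ℝ → Fin 4 → SL4, ∀ t, W t = Wf g (V t) := ⟨_, fun _ => rfl⟩
  have hW : ∀ i, HasDerivAt (fun t => (W t i : M4)) (z (gen i) * (ρ (gen i) : M4)) 0 := by
    intro i
    have h := nrm_hasDerivAt (hVi i) (hV0i i) (htr _)
    have e : (fun t => (W t i : M4)) = fun t => (nrm (V t i) (ρ (gen i)) : M4) := by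
      funext t
      rw [hWd, Wf, hg]
    rw [e]
    exact h
  have hW0 : ∀ i, W 0 i = ρ (gen i) := by
    intro i
    apply Subtype.ext
    have hd : (V 0 i).det = 1 := by
      rw [hV0i]; exact Matrix.SpecialLinearGroup.det_coe _
    rw [hWd, Wf, hg, nrm_coe (by rw [hd]; exact one_pos), hd, Real.one_rpow, one_smul, hV0i]
  have hdet : ∀ᶠ t in 𝓝 (0 : ℝ), ∀ i, 0 < (V t i).det := by
    rw [Filter.eventually_all]
    intro i
    have := (det_hasDerivAt (hVi i) (hV0i i)).continuousAt.tendsto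
    have hd : (V 0 i).det = 1 := by
      rw [hV0i]; exact Matrix.SpecialLinearGroup.det_coe _
    rw [hd] at this
    exact this.eventually (lt_mem_nhds one_pos)
  have hPsi : ∀ᶠ t in 𝓝 (0 : ℝ), 0 < (Psi (V t)).trace := by
    obtain ⟨hval, f', hf, -⟩ := hasD_Psi a
    have h1 : ContinuousAt Psi (V 0) := by rw [hV0]; exact hf.hasFDerivAt.continuousAt
    have h2 : ContinuousAt (fun t => Psi (V t)) 0 :=
      ContinuousAt.comp (f := V) (g := Psi) (x := (0 : ℝ)) h1 hV.continuousAt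
    have h3 : ContinuousAt (fun t => (Psi (V t)).trace) 0 :=
      (LinearMap.toContinuousLinearMap
        (Matrix.traceLinearMap (Fin 4) ℝ ℝ)).continuous.continuousAt.comp h2
    have h4 : (Psi (V 0)).trace = 4 := by
      have : Psi (V 0) = 1 := by
        rw [hV0]
        change Psi (fun i => (a i : M4)) = 1
        rw [hval, hr, Units.val_one]
      rw [this, Matrix.trace_one]; simp
    have h5 := h3.tendsto
    rw [h4] at h5
    exact h5.eventually (lt_mem_nhds (by norm_num))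
  have hrel : ∀ᶠ t in 𝓝 (0 : ℝ), ∀ i, Rf ρ (W t) (gen i) = W t i := by
    filter_upwards [hdet, hPsi, hVp] with t h1 h2 h3
    intro i
    have h4 := Wf_rel (g := g) h1 h3 h2
    rw [← hWd] at h4
    exact Rf_gen h4 i
  refine ⟨fun t => Rf ρ (W t), Rf_self ρ hW0, ?_⟩
  have hR0 : Rf ρ (W 0) = ρ := Rf_self ρ hW0
  have hall : ∀ γ, HasDerivAt (fun t => (Rf ρ (W t) γ : M4)) (z γ * (ρ γ : M4)) 0 := by
    refine R_all (R := fun t => Rf ρ (W t)) hz hR0 ?_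
    intro i
    refine (hW i).congr_of_eventuallyEq ?_
    filter_upwards [hrel] with t ht
    rw [ht i]
  intro γ i j
  have h1 := (LinearMap.toContinuousLinearMap
    (Matrix.entryLinearMap ℝ ℝ i j)).hasFDerivAt.comp_hasDerivAt (0 : ℝ) (hall γ)
  exact h1

end P8H72.HRF
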