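import Pool.Agent.P8H97.HR.Stm

/-! Project HR, package F, first half: derivative of the surface relator and its surjectivity. -/

namespace P8H72.HRF

open Matrix P8H97.HR Filter Topology
open scoped Matrix.Norms.Operator

/-- `f` takes the value `a` at `A` and is strictly differentiable there with derivative `d` -/
structure HasD {E : Type*} [NormedAddCommGroup E] [NormedSpace ℝ E] (A : E) (f : E → M4)
    (a : M4) (d : E → M4) : Prop where
  val : f A = a
  der : ∃ f' : E →L[ℝ] M4, HasStrictFDerivAt f f' A ∧ ∀ v, f' v = d v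

section
variable {E : Type*} [NormedAddCommGroup E] [NormedSpace ℝ E] {A : E}

theorem HasD.mul {f g : E → M4} {a b : M4} {d e : E → M4} (hf : HasD A f a d)
    (hg : HasD A g b e) :
    HasD A (fun x => f x * g x) (a * b) (fun v => d v * b + a * e v) := by
  obtain ⟨hfa, f', hf', hfd⟩ := hf
  obtain ⟨hga, g', hg', hgd⟩ := hg
  refine ⟨by simp [hfa, hga], _, hf'.mul' hg', ?_⟩
  intro v
  change f A * g' v + f' v * g A = _
  rw [hfa, hga, hfd, hgd, add_comm]

theorem HasD.inv {f : E → M4} {a : M4ˣ} {d : E → M4} (hf : HasD A f a d) :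
    HasD A (fun x => Ring.inverse (f x)) ((a⁻¹ : M4ˣ) : M4)
      (fun v => -(((a⁻¹ : M4ˣ) : M4) * d v * ((a⁻¹ : M4ˣ) : M4))) := by
  obtain ⟨hfa, f', hf', hfd⟩ := hf
  have hu : HasStrictFDerivAt (𝕜 := ℝ) (Ring.inverse : M4 → M4)
      (-ContinuousLinearMap.mulLeftRight ℝ M4 ((a⁻¹ : M4ˣ) : M4) ((a⁻¹ : M4ˣ) : M4)) (f A) := by
    rw [hfa]; exact hasStrictFDerivAt_ringInverse a
  refine ⟨by rw [hfa]; exact Ring.inverse_unit a, _, hu.comp A hf', ?_⟩
  intro v
  change -(((a⁻¹ : M4ˣ) : M4) * f' v * ((a⁻¹ : M4ˣ) : M4)) = _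
  rw [hfd]

end

/-- the surface relator on matrices -/
noncomputable def Psi (x : Fin 4 → M4) : M4 :=
  x 0 * x 1 * Ring.inverse (x 0) * Ring.inverse (x 1) *
    (x 2 * x 3 * Ring.inverse (x 2) * Ring.inverse (x 3))

/-- the derivative of a commutator -/
noncomputable def dcom (a b : M4ˣ) (u v : M4) : M4 :=
  ((u * b + a * v) * (a⁻¹ : M4ˣ) + a * b * (-(((a⁻¹ : M4ˣ) : M4) * u * (a⁻¹ : M4ˣ)))) *
    (b⁻¹ : M4ˣ) + a * b * (a⁻¹ : M4ˣ) * (-(((b⁻¹ : M4ˣ) : M4) * v * (b⁻¹ : M4ˣ)))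

/-- the commutator of units -/
def cm (a b : M4ˣ) : M4ˣ := a * b * a⁻¹ * b⁻¹

/-- the derivative of the relator -/
noncomputable def dPsi (a : Fin 4 → M4ˣ) (w : Fin 4 → M4) : M4 :=
  dcom (a 0) (a 1) (w 0) (w 1) * (cm (a 2) (a 3) : M4ˣ) +
    (cm (a 0) (a 1) : M4ˣ) * dcom (a 2) (a 3) (w 2) (w 3)

theorem hasD_proj (a : Fin 4 → M4ˣ) (i : Fin 4) :
    HasD (fun i => (a i : M4)) (fun x : Fin 4 → M4 => x i) (a i) (fun w => w i) :=
  ⟨rfl, ContinuousLinearMap.proj (R := ℝ) (φ := fun _ : Fin 4 => M4) i,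
    (ContinuousLinearMap.proj (R := ℝ) (φ := fun _ : Fin 4 => M4) i).hasStrictFDerivAt,
    fun _ => rfl⟩

theorem hasD_Psi (a : Fin 4 → M4ˣ) :
    HasD (fun i => (a i : M4)) Psi ((cm (a 0) (a 1) * cm (a 2) (a 3) : M4ˣ) : M4) (dPsi a) := by
  have h01 := (((hasD_proj a 0).mul (hasD_proj a 1)).mul (hasD_proj a 0).inv).mul
    (hasD_proj a 1).inv
  have h23 := (((hasD_proj a 2).mul (hasD_proj a 3)).mul (hasD_proj a 2).inv).mul
    (hasD_proj a 3).inv
  have h := h01.mul h23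
  have e1 : ((cm (a 0) (a 1) * cm (a 2) (a 3) : M4ˣ) : M4) =
      (a 0 : M4) * (a 1 : M4) * ((a 0)⁻¹ : M4ˣ) * ((a 1)⁻¹ : M4ˣ) *
        ((a 2 : M4) * (a 3 : M4) * ((a 2)⁻¹ : M4ˣ) * ((a 3)⁻¹ : M4ˣ)) := by
    simp [cm]
  rw [e1]
  exact h

/-! ### The algebra -/

/-- units commuting with `Y` -/
def cen (Y : M4) : Subgroup M4ˣ where
  carrier := {u | Commute Y (u : M4)}
  mul_mem' {u v} hu hv := by
    simp only [Set.mem_ofPred_eq, Units.val_mul] at *
    exact hu.mul_right hv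
  one_mem' := by simp
  inv_mem' {u} hu := by
    simp only [Set.mem_ofPred_eq] at *
    exact hu.units_inv_right

theorem mem_cen {Y : M4} {u : M4ˣ} : u ∈ cen Y ↔ Commute Y (u : M4) := Iff.rfl

theorem tr_conj (Y : M4) (g : M4ˣ) (U : M4) :
    (Y * ((g : M4) * U * ((g⁻¹ : M4ˣ) : M4))).trace =
      (((g⁻¹ : M4ˣ) : M4) * Y * (g : M4) * U).trace := by
  have : Y * ((g : M4) * U * ((g⁻¹ : M4ˣ) : M4)) = (Y * (g : M4) * U) * ((g⁻¹ : M4ˣ) : M4) := by
    noncomm_ring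
  rw [this, Matrix.trace_mul_comm]
  congr 1
  noncomm_ring

theorem conj_eq {Y : M4} {g h : M4ˣ}
    (H : ∀ U : M4, (Y * ((g : M4) * U * ((g⁻¹ : M4ˣ) : M4) -
      (h : M4) * U * ((h⁻¹ : M4ˣ) : M4))).trace = 0) : h * g⁻¹ ∈ cen Y := by
  have h1 : ((g⁻¹ : M4ˣ) : M4) * Y * (g : M4) = ((h⁻¹ : M4ˣ) : M4) * Y * (h : M4) := by
    rw [Matrix.ext_iff_trace_mul_right]
    intro U
    have := H U
    rw [mul_sub, Matrix.trace_sub, tr_conj, tr_conj, sub_eq_zero] at this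
    exact this
  rw [mem_cen, Units.val_mul]
  have h2 : (h : M4) * (((g⁻¹ : M4ˣ) : M4) * Y * (g : M4)) * ((g⁻¹ : M4ˣ) : M4) =
      (h : M4) * (((h⁻¹ : M4ˣ) : M4) * Y * (h : M4)) * ((g⁻¹ : M4ˣ) : M4) := by rw [h1]
  simp only [mul_assoc, Units.mul_inv, mul_one, Units.mul_inv_cancel_left] at h2
  rw [commute_iff_eq]
  rw [← h2]
  noncomm_ring

theorem pair_comm {Y : M4} {a b : M4ˣ}
    (h0 : ∀ U : M4, (Y * (U - ((a * b * a⁻¹ : M4ˣ) : M4) * U *
      (((a * b * a⁻¹)⁻¹ : M4ˣ) : M4))).trace = 0)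
    (h1 : ∀ U : M4, (Y * ((a : M4) * U * ((a⁻¹ : M4ˣ) : M4) -
      (cm a b : M4) * U * (((cm a b)⁻¹ : M4ˣ) : M4))).trace = 0) :
    a ∈ cen Y ∧ b ∈ cen Y := by
  have hg : a * b * a⁻¹ ∈ cen Y := by
    have := conj_eq (Y := Y) (g := 1) (h := a * b * a⁻¹) (by
      intro U
      have := h0 U
      simpa using this)
    simpa using this
  have hp : cm a b * a⁻¹ ∈ cen Y := conj_eq h1
  have ha : a ∈ cen Y := by
    have : a = ((a * b * a⁻¹)⁻¹ * (cm a b * a⁻¹) * (a * b * a⁻¹))⁻¹ := by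
      simp only [cm]; group
    rw [this]
    exact (cen Y).inv_mem ((cen Y).mul_mem ((cen Y).mul_mem ((cen Y).inv_mem hg) hp) hg)
  refine ⟨ha, ?_⟩
  have : b = a⁻¹ * (a * b * a⁻¹) * a := by group
  rw [this]
  exact (cen Y).mul_mem ((cen Y).mul_mem ((cen Y).inv_mem ha) hg) ha

theorem dcom_left (a b : M4ˣ) (U : M4) :
    dcom a b (U * a) 0 = (U - ((a * b * a⁻¹ : M4ˣ) : M4) * U *
      (((a * b * a⁻¹)⁻¹ : M4ˣ) : M4)) * (cm a b : M4) := by
  simp only [dcom, cm, Units.val_mul, _root_.mul_inv_rev, inv_inv, sub_mul, mul_assoc, mul_zero,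
    zero_mul, neg_zero, add_zero, mul_neg, neg_mul, add_mul, Units.inv_mul_cancel_left,
    Units.mul_inv_cancel_left, Units.inv_mul, Units.mul_inv, mul_one]
  noncomm_ring

theorem dcom_right (a b : M4ˣ) (U : M4) :
    dcom a b 0 (U * b) = ((a : M4) * U * ((a⁻¹ : M4ˣ) : M4) -
      (cm a b : M4) * U * (((cm a b)⁻¹ : M4ˣ) : M4)) * (cm a b : M4) := by
  simp only [dcom, cm, Units.val_mul, _root_.mul_inv_rev, inv_inv, sub_mul, mul_assoc, mul_zero,
    zero_mul, neg_zero, add_zero, zero_add, mul_neg, neg_mul, add_mul, Units.inv_mul_cancel_left,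
    Units.mul_inv_cancel_left, Units.inv_mul, Units.mul_inv, mul_one]
  noncomm_ring

/-- a functional that kills the image of the derivative commutes with the representation -/
theorem all_comm {Y : M4} {a : Fin 4 → M4ˣ} (hr : cm (a 0) (a 1) * cm (a 2) (a 3) = 1)
    (H : ∀ w, (Y * dPsi a w).trace = 0) : ∀ i, a i ∈ cen Y := by
  have hPQ : (cm (a 0) (a 1) : M4) * (cm (a 2) (a 3) : M4) = 1 := by
    rw [← Units.val_mul, hr, Units.val_one]
  have hz : ∀ c d : M4ˣ, dcom c d 0 0 = 0 := by intro c d; simp [dcom]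
  have h01 : a 0 ∈ cen Y ∧ a 1 ∈ cen Y := by
    apply pair_comm
    · intro U
      have := H ![U * (a 0 : M4), 0, 0, 0]
      simp only [dPsi, Matrix.cons_val, dcom_left, hz, mul_zero, add_zero] at this
      rw [mul_assoc ((_ : M4) - _) _ _, hPQ, mul_one] at this
      exact this
    · intro U
      have := H ![0, U * (a 1 : M4), 0, 0]
      simp only [dPsi, Matrix.cons_val, dcom_right, hz, mul_zero, add_zero] at this
      rw [mul_assoc ((_ : M4) - _) _ _, hPQ, mul_one] at this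
      exact this
  have hcm : cm (a 0) (a 1) ∈ cen Y :=
    (cen Y).mul_mem ((cen Y).mul_mem ((cen Y).mul_mem h01.1 h01.2) ((cen Y).inv_mem h01.1))
      ((cen Y).inv_mem h01.2)
  have htr : ∀ W : M4, (Y * ((cm (a 0) (a 1) : M4) * (W * (cm (a 2) (a 3) : M4)))).trace =
      (Y * W).trace := by
    intro W
    rw [← mul_assoc, (mem_cen.1 hcm).eq, mul_assoc, Matrix.trace_mul_comm, mul_assoc,
      mul_assoc]
    have : (cm (a 2) (a 3) : M4) * (cm (a 0) (a 1) : M4) = 1 := by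
      rw [← Units.val_mul, mul_eq_one_comm.1 hr, Units.val_one]
    rw [this, mul_one]
  have h23 : a 2 ∈ cen Y ∧ a 3 ∈ cen Y := by
    apply pair_comm
    · intro U
      have := H ![0, 0, U * (a 2 : M4), 0]
      simp only [dPsi, Matrix.cons_val, dcom_left, hz, zero_mul, zero_add] at this
      rw [htr] at this
      exact this
    · intro U
      have := H ![0, 0, 0, U * (a 3 : M4)]
      simp only [dPsi, Matrix.cons_val, dcom_right, hz, zero_mul, zero_add] at this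
      rw [htr] at this
      exact this
  intro i
  fin_cases i
  · exact h01.1
  · exact h01.2
  · exact h23.1
  · exact h23.2

end P8H72.HRF
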