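import Pool.Agent.P8H72.HR.F1

/-! Project HR, package F, second half: implicit function theorem and the path. -/

namespace P8H72.HRF

open Matrix P8H97.HR Filter Topology
open scoped Matrix.Norms.Operator

/-- traceless matrices -/
abbrev sl : Submodule ℝ M4 := LinearMap.ker (Matrix.traceLinearMap (Fin 4) ℝ ℝ)

/-- projection to the traceless part -/
noncomputable def prL : M4 →ₗ[ℝ] sl where
  toFun X := ⟨X - (X.trace / 4) • (1 : M4), by
    rw [LinearMap.mem_ker, Matrix.traceLinearMap_apply, Matrix.trace_sub, Matrix.trace_smul,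
      Matrix.trace_one]
    simp⟩
  map_add' X Y := by
    ext1
    simp only [Matrix.trace_add, Submodule.coe_add, add_div, add_smul]
    abel
  map_smul' c X := by
    ext1
    simp only [Matrix.trace_smul, smul_eq_mul, mul_div_assoc, RingHom.id_apply, Submodule.coe_smul,
      smul_sub, smul_smul]

/-- projection to the traceless part -/
noncomputable def pr : M4 →L[ℝ] sl := LinearMap.toContinuousLinearMap prL

theorem pr_coe (X : M4) : ((pr X : sl) : M4) = X - (X.trace / 4) • (1 : M4) := rfl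

theorem exists_tr (φ : M4 →ₗ[ℝ] ℝ) : ∃ Y : M4, ∀ X, φ X = (Y * X).trace := by
  refine ⟨Matrix.of fun j i => φ (Matrix.single i j 1), fun X => ?_⟩
  conv_lhs => rw [Matrix.matrix_eq_sum_single X]
  simp only [map_sum, Matrix.trace, Matrix.diag_apply, Matrix.mul_apply, Matrix.of_apply]
  rw [Finset.sum_comm]
  refine Finset.sum_congr rfl fun j _ => Finset.sum_congr rfl fun i _ => ?_
  have : Matrix.single i j (X i j) = X i j • Matrix.single i j (1 : ℝ) := by
    rw [Matrix.smul_single]; simp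
  rw [this, map_smul, smul_eq_mul, mul_comm]

theorem surj {a : Fin 4 → M4ˣ} (hr : cm (a 0) (a 1) * cm (a 2) (a 3) = 1)
    (hc : ∀ Y : M4, (∀ i, a i ∈ cen Y) → ∃ c : ℝ, Y = c • (1 : M4))
    {f' : (Fin 4 → M4) →L[ℝ] M4} (hf' : ∀ v, f' v = dPsi a v) :
    (pr.comp f').range = ⊤ := by
  by_contra hne
  obtain ⟨φ, hφ, hle⟩ := Submodule.exists_le_ker_of_lt_top _ (lt_top_iff_ne_top.2 hne)
  obtain ⟨Y, hY⟩ := exists_tr (φ ∘ₗ prL)
  have H : ∀ w, (Y * dPsi a w).trace = 0 := by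
    intro w
    rw [← hY, ← hf']
    exact hle ⟨w, rfl⟩
  obtain ⟨c, hc⟩ := hc Y (all_comm hr H)
  apply hφ
  refine LinearMap.ext fun X => ?_
  have h1 : prL (X : M4) = X := by
    ext1
    have hX : (X : M4).trace = 0 := X.2
    change (X : M4) - ((X : M4).trace / 4) • (1 : M4) = X
    rw [hX]; simp
  have h2 := hY (X : M4)
  rw [LinearMap.comp_apply, h1, hc] at h2
  have hX : (X : M4).trace = 0 := X.2
  rw [h2, Matrix.smul_mul, one_mul, Matrix.trace_smul, hX]
  simp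

theorem line_deriv {G : Type*} [NormedAddCommGroup G] [NormedSpace ℝ G] (k : G) :
    HasDerivAt (fun t : ℝ => t • k) k 0 := by
  simpa using (hasDerivAt_id (0 : ℝ)).smul_const k

theorem line_deriv' {G : Type*} [NormedAddCommGroup G] [NormedSpace ℝ G] (c k : G) :
    HasDerivAt (fun t : ℝ => c + t • k) k 0 := by
  simpa using ((hasDerivAt_id (0 : ℝ)).smul_const k).const_add c

theorem quad_deriv (c : ℝ) (q : Polynomial ℝ) :
    HasDerivAt (fun t : ℝ => 1 + c * t + q.eval t * t ^ 2) c 0 := by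
  have h5 : HasDerivAt (fun t : ℝ => 1 + c * t) c 0 := by
    simpa using ((hasDerivAt_id (0 : ℝ)).const_mul c).const_add 1
  have h6 : HasDerivAt (fun t : ℝ => q.eval t * t ^ 2) 0 0 := by
    have h := (q.hasDerivAt (0 : ℝ)).mul (hasDerivAt_pow 2 (0 : ℝ))
    have e : Polynomial.eval 0 (Polynomial.derivative q) * (0 : ℝ) ^ 2 +
        Polynomial.eval 0 q * (((2 : ℕ) : ℝ) * 0 ^ (2 - 1)) = 0 := by simp
    rw [e] at h
    exact h
  have h7 := h5.add h6
  rw [add_zero] at h7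
  exact h7

theorem path_exists {a : Fin 4 → M4ˣ} (hr : cm (a 0) (a 1) * cm (a 2) (a 3) = 1)
    (hc : ∀ Y : M4, (∀ i, a i ∈ cen Y) → ∃ c : ℝ, Y = c • (1 : M4))
    (v : Fin 4 → M4) (hv : dPsi a v = 0) :
    ∃ V : ℝ → Fin 4 → M4, V 0 = (fun i => (a i : M4)) ∧ HasDerivAt V v 0 ∧
      ∀ᶠ t in 𝓝 (0 : ℝ), pr (Psi (V t)) = 0 := by
  obtain ⟨hval, f', hf, hf'⟩ := hasD_Psi a
  have hF : HasStrictFDerivAt (fun x => pr (Psi x)) (pr.comp f') (fun i => (a i : M4)) :=
    (pr.hasStrictFDerivAt).comp _ hf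
  have hs := surj hr hc hf'
  have hk : v ∈ (pr.comp f').ker := by
    have : (pr.comp f') v = 0 := by
      change pr (f' v) = 0
      rw [hf', hv, map_zero]
    exact this
  have hd : HasDerivAt (fun t : ℝ => t • (⟨v, hk⟩ : (pr.comp f').ker)) ⟨v, hk⟩ 0 :=
    line_deriv _
  have hval0 : pr (Psi fun i => (a i : M4)) = 0 := by
    rw [hval, hr, Units.val_one]
    ext1
    rw [pr_coe]
    simp [Matrix.trace_one]
  refine ⟨fun t => hF.implicitFunction _ _ hs (pr (Psi fun i => (a i : M4)))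
    (t • (⟨v, hk⟩ : (pr.comp f').ker)), ?_, ?_, ?_⟩
  · simp only [zero_smul]
    exact hF.implicitFunction_apply_image hs
  · have h := (hF.to_implicitFunction hs).hasFDerivAt
    have := HasFDerivAt.comp_hasDerivAt_of_eq (0 : ℝ) h hd (zero_smul ℝ _).symm
    exact this
  · have h := hF.map_implicitFunction_eq hs
    have ht : Tendsto (fun t : ℝ => ((pr (Psi fun i => (a i : M4)) : sl),
        t • (⟨v, hk⟩ : (pr.comp f').ker))) (𝓝 0)
        (𝓝 ((pr (Psi fun i => (a i : M4)) : sl), (0 : (pr.comp f').ker))) := by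
      have h0 := hd.continuousAt.tendsto
      rw [zero_smul] at h0
      exact tendsto_const_nhds.prodMk_nhds h0
    filter_upwards [ht.eventually h] with t ht
    rw [ht, hval0]

/-! ### Normalisation -/

theorem rpow_four {d : ℝ} (hd : 0 < d) : (d ^ (-(1 / 4 : ℝ))) ^ 4 * d = 1 := by
  rw [← Real.rpow_natCast, ← Real.rpow_mul hd.le]
  norm_num
  rw [Real.rpow_neg_one]
  exact inv_mul_cancel₀ hd.ne'

/-- normalisation to determinant one -/
noncomputable def nrm (X : M4) (g : SL4) : SL4 :=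
  if h : 0 < X.det then ⟨X.det ^ (-(1 / 4 : ℝ)) • X, by
    rw [Matrix.det_smul, Fintype.card_fin]
    exact rpow_four h⟩ else g

theorem nrm_coe {X : M4} {g : SL4} (h : 0 < X.det) :
    (nrm X g : M4) = X.det ^ (-(1 / 4 : ℝ)) • X := by
  simp [nrm, h]

theorem nrm_inv {X : M4} {g : SL4} (h : 0 < X.det) :
    (((nrm X g)⁻¹ : SL4) : M4) = (X.det ^ (-(1 / 4 : ℝ)))⁻¹ • Ring.inverse X := by
  have hs : X.det ^ (-(1 / 4 : ℝ)) ≠ 0 := (Real.rpow_pos_of_pos h _).ne'
  have hu : IsUnit X := (Matrix.isUnit_iff_isUnit_det X).2 (isUnit_iff_ne_zero.2 h.ne')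
  have h1 : (((nrm X g)⁻¹ : SL4) : M4) * (nrm X g : M4) = 1 := by
    rw [← Matrix.SpecialLinearGroup.coe_mul, inv_mul_cancel, Matrix.SpecialLinearGroup.coe_one]
  have h2 : (nrm X g : M4) * ((X.det ^ (-(1 / 4 : ℝ)))⁻¹ • Ring.inverse X) = 1 := by
    rw [nrm_coe h, smul_mul_assoc, mul_smul_comm, smul_smul, mul_inv_cancel₀ hs, one_smul]
    exact Ring.mul_inverse_cancel X hu
  exact left_inv_eq_right_inv h1 h2

theorem nrm_rel {X : Fin 4 → M4} {g : Fin 4 → SL4} (h : ∀ i, 0 < (X i).det) :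
    ((nrm (X 0) (g 0) * nrm (X 1) (g 1) * (nrm (X 0) (g 0))⁻¹ * (nrm (X 1) (g 1))⁻¹ *
      (nrm (X 2) (g 2) * nrm (X 3) (g 3) * (nrm (X 2) (g 2))⁻¹ * (nrm (X 3) (g 3))⁻¹) : SL4) : M4)
      = Psi X := by
  have hs : ∀ i, (X i).det ^ (-(1 / 4 : ℝ)) ≠ 0 := fun i => (Real.rpow_pos_of_pos (h i) _).ne'
  simp only [Matrix.SpecialLinearGroup.coe_mul, nrm_inv (h _), nrm_coe (h _), Psi,
    smul_mul_assoc, mul_smul_comm, smul_smul]
  have : (((X 2).det ^ (-(1 / 4 : ℝ)))⁻¹ * ((X 3).det ^ (-(1 / 4 : ℝ)))⁻¹ : ℝ) = 0 ∨ True :=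
    Or.inr trivial
  convert one_smul ℝ _ using 2
  have h0 := hs 0
  have h1 := hs 1
  have h2 := hs 2
  have h3 := hs 3
  field_simp

theorem eq_one_of {X : Fin 4 → M4} {g : Fin 4 → SL4} (h : ∀ i, 0 < (X i).det)
    (hp : pr (Psi X) = 0) (ht : 0 < (Psi X).trace) :
    nrm (X 0) (g 0) * nrm (X 1) (g 1) * (nrm (X 0) (g 0))⁻¹ * (nrm (X 1) (g 1))⁻¹ *
      (nrm (X 2) (g 2) * nrm (X 3) (g 3) * (nrm (X 2) (g 2))⁻¹ * (nrm (X 3) (g 3))⁻¹) = 1 := by
  have h1 : Psi X = ((Psi X).trace / 4) • (1 : M4) := by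
    have := congrArg (fun y : sl => (y : M4)) hp
    simp only [pr_coe, Submodule.coe_zero, sub_eq_zero] at this
    exact this
  have hdet : (Psi X).det = 1 := by
    rw [← nrm_rel (g := g) h]
    exact Matrix.SpecialLinearGroup.det_coe _
  have h4 : ((Psi X).trace / 4) ^ 4 = 1 := by
    rw [h1, Matrix.det_smul, Matrix.det_one, Fintype.card_fin, mul_one] at hdet
    exact hdet
  have h5 : (Psi X).trace / 4 = 1 := by
    exact (pow_eq_one_iff_of_nonneg (by positivity) (by norm_num)).1 h4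
  apply Subtype.ext
  change ((_ : SL4) : M4) = ((1 : SL4) : M4)
  rw [nrm_rel h, h1, h5, one_smul, Matrix.SpecialLinearGroup.coe_one]

/-! ### Derivative of the determinant -/

theorem det_hasDerivAt_one {X : ℝ → M4} {Z : M4} (hX : HasDerivAt X Z 0) (h0 : X 0 = 1) :
    HasDerivAt (fun t => (X t).det) Z.trace 0 := by
  have hdiff : DifferentiableAt ℝ (fun M : M4 => M.det) 1 := by
    have : (fun M : M4 => M.det) = fun M : M4 =>
        ∑ σ : Equiv.Perm (Fin 4), ((Equiv.Perm.sign σ : ℤ) : ℝ) * ∏ i, M (σ i) i := by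
      funext M
      rw [Matrix.det_apply']
    rw [this]
    have hent : ∀ i j, DifferentiableAt ℝ (fun M : M4 => M i j) 1 := fun i j =>
      (LinearMap.toContinuousLinearMap (Matrix.entryLinearMap ℝ ℝ i j)).differentiableAt
    fun_prop
  have hX' : HasFDerivAt (fun M : M4 => M.det) (fderiv ℝ (fun M : M4 => M.det) 1) (X 0) := by
    rw [h0]; exact hdiff.hasFDerivAt
  have h1 := hX'.comp_hasDerivAt (0 : ℝ) hX
  have h2 : fderiv ℝ (fun M : M4 => M.det) 1 Z = Z.trace := by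
    have hl : HasDerivAt (fun t : ℝ => (1 : M4) + t • Z) Z 0 := line_deriv' _ _
    have hl' : HasFDerivAt (fun M : M4 => M.det) (fderiv ℝ (fun M : M4 => M.det) 1)
        ((fun t : ℝ => (1 : M4) + t • Z) 0) := by
      simp only [zero_smul, add_zero]; exact hdiff.hasFDerivAt
    have h3 := hl'.comp_hasDerivAt (0 : ℝ) hl
    have h4 : HasDerivAt (fun t : ℝ => ((1 : M4) + t • Z).det) Z.trace 0 := by
      have e : (fun t : ℝ => ((1 : M4) + t • Z).det) = fun t : ℝ =>
          1 + Z.trace * t + (Matrix.det (1 + (Polynomial.X : Polynomial ℝ) •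
            Z.map Polynomial.C)).divX.divX.eval t * t ^ 2 := by
        funext t
        rw [Matrix.det_one_add_smul]
      rw [e]
      exact quad_deriv _ _
    exact h3.unique h4
  exact HasDerivAt.congr_deriv h1 h2

theorem det_hasDerivAt {X : ℝ → M4} {Z : M4} {g : SL4} (hX : HasDerivAt X (Z * (g : M4)) 0)
    (h0 : X 0 = g) : HasDerivAt (fun t => (X t).det) Z.trace 0 := by
  have hg : (g : M4) * ((g⁻¹ : SL4) : M4) = 1 := by
    rw [← Matrix.SpecialLinearGroup.coe_mul, mul_inv_cancel, Matrix.SpecialLinearGroup.coe_one]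
  have h1 : HasDerivAt (fun t => X t * ((g⁻¹ : SL4) : M4)) Z 0 := by
    have := hX.mul_const ((g⁻¹ : SL4) : M4)
    rwa [mul_assoc, hg, mul_one] at this
  have h2 := det_hasDerivAt_one h1 (by rw [h0, hg])
  have e : (fun t => (X t * ((g⁻¹ : SL4) : M4)).det) = fun t => (X t).det := by
    funext t
    rw [Matrix.det_mul, Matrix.SpecialLinearGroup.det_coe, mul_one]
  rwa [e] at h2

theorem nrm_hasDerivAt {X : ℝ → M4} {Z : M4} {g : SL4} (hX : HasDerivAt X (Z * (g : M4)) 0)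
    (h0 : X 0 = g) (hZ : Z.trace = 0) :
    HasDerivAt (fun t => (nrm (X t) g : M4)) (Z * (g : M4)) 0 := by
  have hd := det_hasDerivAt hX h0
  rw [hZ] at hd
  have hd0 : (X 0).det = 1 := by rw [h0]; exact Matrix.SpecialLinearGroup.det_coe g
  have hpow : HasDerivAt (fun t => (X t).det ^ (-(1 / 4 : ℝ))) 0 0 := by
    have := hd.rpow_const (p := -(1 / 4 : ℝ)) (Or.inl (by rw [hd0]; norm_num))
    simpa using this
  have hs := hpow.smul hX
  have hs' : HasDerivAt (fun t => (X t).det ^ (-(1 / 4 : ℝ)) • X t) (Z * (g : M4)) 0 := by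
    have e : (X 0).det ^ (-(1 / 4 : ℝ)) • (Z * (g : M4)) + (0 : ℝ) • X 0 = Z * (g : M4) := by
      rw [hd0, Real.one_rpow, one_smul, zero_smul, add_zero]
    rw [← e]
    exact hs
  refine hs'.congr_of_eventuallyEq ?_
  have hpos : ∀ᶠ t in 𝓝 (0 : ℝ), 0 < (X t).det := by
    have := hd.continuousAt.tendsto
    rw [hd0] at this
    exact this.eventually (lt_mem_nhds one_pos)
  filter_upwards [hpos] with t ht
  exact nrm_coe ht

end P8H72.HRF
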